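import Pool.Agent.Work.MP_4eb3f9_an_helper6.FInterface

/-!
# Block F6: good radius and gluing
-/

open Complex MeasureTheory Filter Topology
open scoped ContDiff

namespace CMA

/-! ### Good radius -/

/-- The slice integral of a continuous function with support in `{|z| ≤ 1}` is continuous. -/
lemma slice_continuous {G : ℂ × ℂ → ℝ} (hG : Continuous G)
    (hs : ∀ p : ℂ × ℂ, 1 < ‖p.1‖ → G p = 0) : Continuous (fun w => ∫ z, G (z, w)) := by
  have h1 : (fun w => ∫ z, G (z, w)) = fun w => ∫ z in Metric.closedBall (0 : ℂ) 1, G (z, w) := by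
    funext w
    rw [setIntegral_eq_integral_of_forall_compl_eq_zero]
    intro z hz
    exact hs _ (by simpa using hz)
  rw [h1]
  have h2 : Continuous (Function.uncurry fun (w : ℂ) (z : ℂ) => G (z, w)) := by
    exact hG.comp (continuous_snd.prodMk continuous_fst)
  exact continuous_parametric_integral_of_continuous h2 (isCompact_closedBall _ _)

lemma circle_shift {J : ℂ → ℝ} (r : ℝ) :
    ∫ θ in (0 : ℝ)..(2 * Real.pi), J (r * Complex.exp (θ * Complex.I))
      = ∫ θ in Set.Ioo (-Real.pi) Real.pi, J (r * Complex.exp (θ * Complex.I)) := by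
  have hp : Function.Periodic (fun θ : ℝ => J (r * Complex.exp (θ * Complex.I)))
      (2 * Real.pi) := by
    intro θ
    simp only
    congr 2
    push_cast
    rw [add_mul, Complex.exp_add]
    have : Complex.exp (2 * Real.pi * Complex.I) = 1 := Complex.exp_two_pi_mul_I
    rw [this, mul_one]
  have h := hp.intervalIntegral_add_eq (-Real.pi) 0
  rw [zero_add] at h
  rw [← h]
  have : -Real.pi + 2 * Real.pi = Real.pi := by ring
  rw [this, intervalIntegral.integral_of_le (by linarith [Real.pi_pos]),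
    integral_Ioc_eq_integral_Ioo]

/-- Polar coordinates in the `w` variable. -/
lemma polar_lower {G : ℂ × ℂ → ℝ} (hG : Continuous G) (hcs : HasCompactSupport G)
    (hs : ∀ p : ℂ × ℂ, 1 < ‖p.1‖ → G p = 0) (h0 : ∀ p, 0 ≤ G p) {r₀ L : ℝ} (hr₀ : 0 < r₀)
    (hL : ∀ r ∈ Set.Ioo (r₀ / 2) r₀,
      L ≤ ∫ θ in (0 : ℝ)..(2 * Real.pi), ∫ z, G (z, r * Complex.exp (θ * Complex.I))) :
    3 / 8 * r₀ ^ 2 * L ≤ ∫ p in {p : ℂ × ℂ | ‖p.2‖ ≤ r₀}, G p := by
  set J : ℂ → ℝ := fun w => ∫ z, G (z, w) with hJ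
  have hJc : Continuous J := slice_continuous hG hs
  have hJ0 : ∀ w, 0 ≤ J w := fun w => integral_nonneg (fun z => h0 _)
  have hGi : Integrable G := integrable_of_cs hG hcs
  -- Fubini
  have e1 : ∫ p in {p : ℂ × ℂ | ‖p.2‖ ≤ r₀}, G p = ∫ w in Metric.closedBall (0 : ℂ) r₀, J w := by
    have hset : {p : ℂ × ℂ | ‖p.2‖ ≤ r₀} = Set.univ ×ˢ Metric.closedBall (0 : ℂ) r₀ := by
      ext p; simp
    rw [hset, Measure.volume_eq_prod, ← setIntegral_prod_swap, setIntegral_prod]
    · simp only [Prod.swap_prod_mk, Measure.restrict_univ, hJ]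
    · have : Integrable (fun q : ℂ × ℂ => G q.swap) ((volume : Measure ℂ).prod volume) := by
        have := hGi.swap
        exact this
      exact this.integrableOn
  rw [e1]
  -- polar coordinates
  have e2 : ∫ w in Metric.closedBall (0 : ℂ) r₀, J w
      = ∫ p in polarCoord.target,
          p.1 • (Metric.closedBall (0 : ℂ) r₀).indicator J (Complex.polarCoord.symm p) := by
    rw [Complex.integral_comp_polarCoord_symm, integral_indicator measurableSet_closedBall]
  rw [e2]
  set S : Set (ℝ × ℝ) := Set.Ioo (r₀ / 2) r₀ ×ˢ Set.Ioo (-Real.pi) Real.pi with hS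
  have hST : S ⊆ polarCoord.target := by
    rintro ⟨r, θ⟩ ⟨h1, h2⟩
    rw [polarCoord_target]
    exact ⟨lt_trans (by positivity) h1.1, h2⟩
  have hsymm : ∀ p : ℝ × ℝ, Complex.polarCoord.symm p = p.1 * Complex.exp (p.2 * Complex.I) := by
    intro p
    rw [Complex.polarCoord_symm_apply, Complex.exp_mul_I, Complex.ofReal_cos,
      Complex.ofReal_sin]
  -- integrability on the target
  have hJind : Integrable ((Metric.closedBall (0 : ℂ) r₀).indicator J) := by
    rw [integrable_indicator_iff measurableSet_closedBall]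
    exact hJc.continuousOn.integrableOn_compact (isCompact_closedBall _ _)
  have hbound : ∃ B : ℝ, 0 ≤ B ∧ ∀ w, |(Metric.closedBall (0 : ℂ) r₀).indicator J w| ≤ B := by
    obtain ⟨B, hB⟩ := (isCompact_closedBall (0 : ℂ) r₀).exists_bound_of_continuousOn
      hJc.continuousOn
    refine ⟨max B 0, le_max_right _ _, fun w => ?_⟩
    by_cases hw : w ∈ Metric.closedBall (0 : ℂ) r₀
    · rw [Set.indicator_of_mem hw]
      exact (hB w hw).trans (le_max_left _ _)
    · rw [Set.indicator_of_notMem hw]; simp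
  have hcsymm : Continuous (fun p : ℝ × ℝ => Complex.polarCoord.symm p) := by
    have : (fun p : ℝ × ℝ => Complex.polarCoord.symm p)
        = fun p : ℝ × ℝ => ((p.1 : ℂ) * Complex.exp (p.2 * Complex.I)) := funext hsymm
    rw [this]
    fun_prop
  have hint : IntegrableOn (fun p : ℝ × ℝ =>
      p.1 • (Metric.closedBall (0 : ℂ) r₀).indicator J (Complex.polarCoord.symm p))
      polarCoord.target := by
    obtain ⟨B, hB0, hB⟩ := hbound
    -- the function vanishes for `r > r₀`
    have hvan : ∀ p ∈ polarCoord.target \ (Set.Ioc 0 r₀ ×ˢ Set.Ioo (-Real.pi) Real.pi),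
        p.1 • (Metric.closedBall (0 : ℂ) r₀).indicator J (Complex.polarCoord.symm p) = 0 := by
      rintro ⟨r, θ⟩ ⟨h1, h2⟩
      rw [polarCoord_target] at h1
      have h3 : ¬ r ≤ r₀ := fun h => h2 ⟨⟨h1.1, h⟩, h1.2⟩
      rw [Set.indicator_of_notMem, smul_zero]
      rw [hsymm, Metric.mem_closedBall, dist_zero_right, norm_mul, Complex.norm_exp_ofReal_mul_I,
        mul_one, Complex.norm_real, Real.norm_of_nonneg (le_of_lt h1.1)]
      exact h3
    have hsub : (Set.Ioc 0 r₀ ×ˢ Set.Ioo (-Real.pi) Real.pi) ⊆ polarCoord.target := by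
      rintro ⟨r, θ⟩ ⟨h1, h2⟩
      rw [polarCoord_target]
      exact ⟨h1.1, h2⟩
    have hms : MeasurableSet (Set.Ioc 0 r₀ ×ˢ Set.Ioo (-Real.pi) Real.pi) :=
      measurableSet_Ioc.prod measurableSet_Ioo
    have hfin : (volume : Measure (ℝ × ℝ)) (Set.Ioc 0 r₀ ×ˢ Set.Ioo (-Real.pi) Real.pi) < ⊤ := by
      rw [Measure.volume_eq_prod, Measure.prod_prod]
      simp only [Real.volume_Ioc, Real.volume_Ioo]
      exact ENNReal.mul_lt_top ENNReal.ofReal_lt_top ENNReal.ofReal_lt_top
    have hmeas : Measurable (fun p : ℝ × ℝ =>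
        p.1 • (Metric.closedBall (0 : ℂ) r₀).indicator J (Complex.polarCoord.symm p)) := by
      refine measurable_fst.smul ?_
      exact (hJc.measurable.indicator measurableSet_closedBall).comp hcsymm.measurable
    have hon : IntegrableOn (fun p : ℝ × ℝ =>
        p.1 • (Metric.closedBall (0 : ℂ) r₀).indicator J (Complex.polarCoord.symm p))
        (Set.Ioc 0 r₀ ×ˢ Set.Ioo (-Real.pi) Real.pi) := by
      refine Measure.integrableOn_of_bounded hfin.ne hmeas.aestronglyMeasurable (M := r₀ * B) ?_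
      refine (ae_restrict_iff' hms).2 (Eventually.of_forall ?_)
      rintro ⟨r, θ⟩ ⟨h1, h2⟩
      rw [smul_eq_mul, norm_mul, Real.norm_eq_abs, Real.norm_eq_abs]
      refine mul_le_mul ?_ (hB _) (abs_nonneg _) hr₀.le
      rw [abs_of_pos h1.1]
      exact h1.2
    rw [← Set.union_sdiff_cancel hsub]
    refine hon.union ?_
    have hz : IntegrableOn (fun _ : ℝ × ℝ => (0 : ℝ))
        (polarCoord.target \ (Set.Ioc 0 r₀ ×ˢ Set.Ioo (-Real.pi) Real.pi)) := integrableOn_zero
    refine hz.congr_fun (fun p hp => (hvan p hp).symm) ?_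
    exact polarCoord.open_target.measurableSet.diff hms
  have hnn : 0 ≤ᵐ[(volume : Measure (ℝ × ℝ)).restrict polarCoord.target] (fun p : ℝ × ℝ =>
      p.1 • (Metric.closedBall (0 : ℂ) r₀).indicator J (Complex.polarCoord.symm p)) := by
    refine (ae_restrict_iff' polarCoord.open_target.measurableSet).2 (Eventually.of_forall ?_)
    intro p hp
    rw [polarCoord_target] at hp
    refine mul_nonneg (le_of_lt hp.1) ?_
    exact Set.indicator_nonneg (fun w _ => hJ0 w) _
  have hSm : MeasurableSet S := measurableSet_Ioo.prod measurableSet_Ioo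
  have e3 : ∫ p in S, p.1 • (Metric.closedBall (0 : ℂ) r₀).indicator J (Complex.polarCoord.symm p)
      ≤ ∫ p in polarCoord.target,
          p.1 • (Metric.closedBall (0 : ℂ) r₀).indicator J (Complex.polarCoord.symm p) :=
    setIntegral_mono_set hint hnn (LE.le.eventuallyLE hST)
  refine le_trans ?_ e3
  have e4 : ∫ p in S, p.1 • (Metric.closedBall (0 : ℂ) r₀).indicator J (Complex.polarCoord.symm p)
      = ∫ r in Set.Ioo (r₀ / 2) r₀, ∫ θ in Set.Ioo (-Real.pi) Real.pi,
          r * J (r * Complex.exp (θ * Complex.I)) := by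
    rw [hS, Measure.volume_eq_prod, setIntegral_prod]
    · refine setIntegral_congr_fun measurableSet_Ioo ?_
      intro r hr
      refine setIntegral_congr_fun measurableSet_Ioo ?_
      intro θ _
      have hr0 : 0 < r := lt_trans (by positivity) hr.1
      simp only [smul_eq_mul]
      rw [Set.indicator_of_mem, hsymm]
      rw [hsymm, Metric.mem_closedBall, dist_zero_right, norm_mul, Complex.norm_exp_ofReal_mul_I,
        mul_one, Complex.norm_real, Real.norm_of_nonneg hr0.le]
      exact hr.2.le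
    · have := hint.mono_set hST
      rw [hS] at this
      exact this
  rw [e4]
  have e5 : ∀ r ∈ Set.Ioo (r₀ / 2) r₀, L * r ≤ ∫ θ in Set.Ioo (-Real.pi) Real.pi,
          r * J (r * Complex.exp (θ * Complex.I)) := by
    intro r hr
    have hr0 : 0 < r := lt_trans (by positivity) hr.1
    rw [integral_const_mul, ← circle_shift, mul_comm]
    exact mul_le_mul_of_nonneg_left (hL r hr) hr0.le
  have e6 : ∫ r in Set.Ioo (r₀ / 2) r₀, L * r = 3 / 8 * r₀ ^ 2 * L := by
    rw [← integral_Ioc_eq_integral_Ioo, ← intervalIntegral.integral_of_le (by linarith),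
      intervalIntegral.integral_const_mul, integral_id]
    ring
  rw [← e6]
  refine setIntegral_mono_on ?_ ?_ measurableSet_Ioo e5
  · have : IntegrableOn (fun r : ℝ => L * r) (Set.Icc (r₀ / 2) r₀) :=
      (continuous_const.mul continuous_id).continuousOn.integrableOn_compact isCompact_Icc
    exact this.mono_set Set.Ioo_subset_Icc_self
  · have hc : Continuous (fun r : ℝ => ∫ θ in Set.Icc (-Real.pi) Real.pi,
        r * J (r * Complex.exp (θ * Complex.I))) := by
      refine continuous_parametric_integral_of_continuous ?_ isCompact_Icc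
      have : Continuous (fun q : ℝ × ℝ => q.1 * J (q.1 * Complex.exp (q.2 * Complex.I))) := by
        refine continuous_fst.mul (hJc.comp ?_)
        fun_prop
      exact this
    have hc' : (fun r : ℝ => ∫ θ in Set.Ioo (-Real.pi) Real.pi,
        r * J (r * Complex.exp (θ * Complex.I))) = (fun r : ℝ => ∫ θ in Set.Icc (-Real.pi) Real.pi,
        r * J (r * Complex.exp (θ * Complex.I))) := by
      funext r
      rw [integral_Icc_eq_integral_Ioo]
    rw [hc']
    exact (hc.continuousOn.integrableOn_compact isCompact_Icc).mono_set Set.Ioo_subset_Icc_self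

/-- The good radius. -/
lemma good_radius (hI3 : Stmt_I3) (hT3 : Stmt_T3) {δ M : ℝ} {c : ℝ → ℝ} {f : ℂ × ℂ → ℝ}
    (hδ : 0 < δ) (hM : 0 < M) (hc : IsCut δ c) (ha : Adm δ M f) {r₀ : ℝ} (hr₀ : 0 < r₀)
    (hr₁ : r₀ ≤ 1 / 2) :
    ∃ r : ℝ, r₀ / 2 < r ∧ r < r₀ ∧
      ∫ θ in (0 : ℝ)..(2 * Real.pi), ∫ z, gz (eta c δ f) (z, r * Complex.exp (θ * Complex.I))
        ≤ 129 * (M * (1 + Real.log (1 / r₀))) := by
  by_contra hcon
  push Not at hcon
  have hη := cd_eta hc ha.spsh.smooth
  have hηs := eta_cs hδ hc ha.spsh.smooth.continuous ha.level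
  have hgzs : HasCompactSupport (gz (eta c δ f)) := by
    refine hηs.mono' ?_
    intro p hp
    by_contra hh
    apply hp
    simp [gz, pd_eq_zero_of_nmem _ hh]
  have hsup : ∀ p : ℂ × ℂ, 1 < ‖p.1‖ → gz (eta c δ f) p = 0 := by
    intro p hp
    have hopen : IsOpen {q : ℂ × ℂ | 1 < ‖q.1‖} := isOpen_lt continuous_const (by fun_prop)
    have hloc : eta c δ f =ᶠ[𝓝 p] fun _ => (0 : ℝ) := by
      filter_upwards [hopen.mem_nhds hp] with q hq
      by_contra hh
      have := eta_supp hδ hc ha.level hh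
      exact absurd this.1 (not_lt.2 (le_of_lt hq))
    have h0 : ∀ k, pd k (eta c δ f) p = 0 := by
      intro k
      rw [(pd_congr hloc k).eq_of_nhds, pd_const]
    simp [gz, h0]
  have hlog : 0 ≤ Real.log (1 / r₀) := by
    refine Real.log_nonneg ?_
    rw [le_div_iff₀ hr₀]; linarith
  have h1 := polar_lower (L := 129 * (M * (1 + Real.log (1 / r₀)))) (cd_gz hη).continuous hgzs hsup
    (fun p => gz_nonneg _ _) hr₀ (fun r hr => (hcon r hr.1 hr.2).le)
  have h2 := horizontal hI3 hT3 hδ hM.le hc ha hr₀ (by linarith)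
  have h3 : 0 < r₀ ^ 2 * (M * (1 + Real.log (1 / r₀))) := by positivity
  nlinarith

/-! ### Gluing -/

/-- Block F6. -/
theorem stmt_F6 (hI3 : Stmt_I3) (hT1 : Stmt_T1) (hT2 : Stmt_T2) (hT3 : Stmt_T3)
    (hE : Stmt_E) : Stmt_F6 := by
  obtain ⟨CE, hCE, hE⟩ := hE
  refine ⟨12 * CE + 5 * Real.pi, by positivity, ?_⟩
  intro δ M c f r₀ hδ hM hc ha hr₀ hr₁
  obtain ⟨r, hr1, hr2, hr3⟩ := good_radius hI3 hT3 hδ hM hc ha hr₀ hr₁
  have hη := cd_eta hc ha.spsh.smooth
  have hηs := eta_cs hδ hc ha.spsh.smooth.continuous ha.level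
  obtain ⟨ψ, s, hψ, hs0, hsr, hψ1, hψ2, hψ3⟩ := hE (eta c δ f) r (δ / 4) hη
    (eta_nonneg hc) (fun p hp => eta_supp hδ hc ha.level hp) hηs (by linarith) (by linarith)
    (by linarith)
  obtain ⟨m, hm, hm0, _, hm1, hm2, hm3, hm4, hm5⟩ := hT1.2 (δ / 2) (by linarith)
  obtain ⟨ρ, hρ, hρ'⟩ := ha.level
  have hfc : Continuous f := ha.spsh.smooth.continuous
  have hψc : Continuous ψ := hψ.smooth.continuous
  classical
  set φ : ℂ × ℂ → ℝ := fun p =>
    if ‖p.1‖ < 1 ∧ ‖p.2‖ < s then f p + m ((ψ p - 5 * δ) - f p) else f p with hφdef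
  have hV : ∀ p, (ψ p - 5 * δ) - f p < -(δ / 2) → φ p = f p := by
    intro p hp
    simp only [hφdef]
    split_ifs with h
    · rw [hm0 _ hp.le, add_zero]
    · rfl
  -- the trichotomy
  have htri : ∀ p : ℂ × ℂ, (‖p.1‖ < 1 ∧ ‖p.2‖ < s ∧
      φ =ᶠ[𝓝 p] fun q => f q + m ((ψ q - 5 * δ) - f q)) ∨ φ =ᶠ[𝓝 p] f := by
    intro p
    by_cases hU : ‖p.1‖ < 1 ∧ ‖p.2‖ < s
    · left
      refine ⟨hU.1, hU.2, ?_⟩
      have ho1 : IsOpen {q : ℂ × ℂ | ‖q.1‖ < 1} := isOpen_lt (by fun_prop) continuous_const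
      have ho2 : IsOpen {q : ℂ × ℂ | ‖q.2‖ < s} := isOpen_lt (by fun_prop) continuous_const
      have ho : IsOpen {q : ℂ × ℂ | ‖q.1‖ < 1 ∧ ‖q.2‖ < s} := ho1.inter ho2
      filter_upwards [ho.mem_nhds hU] with q hq
      simp only [hφdef]
      rw [if_pos hq]
    · right
      by_cases h1 : 1 < ‖p.1‖
      · have ho : IsOpen {q : ℂ × ℂ | 1 < ‖q.1‖} := isOpen_lt continuous_const (by fun_prop)
        filter_upwards [ho.mem_nhds h1] with q hq
        simp only [hφdef]
        rw [if_neg]
        intro hh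
        exact absurd hh.1 (not_lt.2 (le_of_lt hq))
      by_cases h2 : s < ‖p.2‖
      · have ho : IsOpen {q : ℂ × ℂ | s < ‖q.2‖} := isOpen_lt continuous_const (by fun_prop)
        filter_upwards [ho.mem_nhds h2] with q hq
        simp only [hφdef]
        rw [if_neg]
        intro hh
        exact absurd hh.2 (not_lt.2 (le_of_lt hq))
      have h1' := not_lt.1 h1
      have h2' := not_lt.1 h2
      have hp : (ψ p - 5 * δ) - f p < -(δ / 2) := by
        by_cases h3 : ‖p.2‖ = s
        · have h4 := hψ2 p h1' h3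
          have h5 := eta_ge (δ := δ) (f := f) hc p
          linarith
        · have h4 : ‖p.1‖ = 1 := by
            by_contra hne
            exact hU ⟨lt_of_le_of_ne h1' hne, lt_of_le_of_ne h2' h3⟩
          have h5 : -δ < f p := by
            by_contra hh
            have := (hρ' p (not_lt.1 hh)).1
            linarith
          have h6 := hψ1 p h1' h2'
          linarith
      have ho : IsOpen {q : ℂ × ℂ | (ψ q - 5 * δ) - f q < -(δ / 2)} :=
        isOpen_lt (by fun_prop) continuous_const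
      filter_upwards [ho.mem_nhds hp] with q hq
      exact hV q hq
  have hψ' : SPsh (fun q => ψ q - 5 * δ) := hψ.sub_const _
  have hfψ : ContDiff ℝ ∞ (fun q => f q + m ((ψ q - 5 * δ) - f q)) :=
    ha.spsh.smooth.add (hm.comp (hψ'.smooth.sub ha.spsh.smooth))
  have hφpsh : SPsh φ := by
    refine ⟨?_, ?_⟩
    · rw [contDiff_iff_contDiffAt]
      intro p
      rcases htri p with ⟨_, _, h⟩ | h
      · exact hfψ.contDiffAt.congr_of_eventuallyEq h
      · exact ha.spsh.smooth.contDiffAt.congr_of_eventuallyEq h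
    · intro p
      rcases htri p with ⟨_, _, h⟩ | h
      · rw [LPos_congr h]
        exact hT2 m f (fun q => ψ q - 5 * δ) p hm hm1 hm2 hm3 ha.spsh.smooth.contDiffAt
          hψ'.smooth.contDiffAt (ha.spsh.pos p) (hψ'.pos p)
      · rw [LPos_congr h]
        exact ha.spsh.pos p
  have hφge : ∀ p, f p ≤ φ p := by
    intro p
    simp only [hφdef]
    split_ifs with h
    · have := (le_max_right _ _).trans (hm4 ((ψ p - 5 * δ) - f p))
      linarith
    · exact le_rfl
  refine ⟨φ, hφpsh, ?_, hφge, ?_, ?_⟩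
  · intro p hp
    simp only [hφdef]
    split_ifs with h
    · by_cases hx : (ψ p - 5 * δ) - f p ≤ -(δ / 2)
      · rw [hm0 _ hx, add_zero]
        exact ha.nonpos p hp
      · have hx' := not_le.1 hx
        have h1 := hm5 ((ψ p - 5 * δ) - f p)
        have h2 := hψ1 p hp.1.le h.2.le
        rcases max_cases ((ψ p - 5 * δ) - f p) 0 with ⟨h3, _⟩ | ⟨h3, _⟩ <;> rw [h3] at h1 <;>
          linarith
    · exact ha.nonpos p hp
  · intro p hp
    have ho : IsOpen {q : ℂ × ℂ | s < ‖q.2‖} := isOpen_lt continuous_const (by fun_prop)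
    have hp' : s < ‖p.2‖ := by linarith
    filter_upwards [ho.mem_nhds hp'] with q hq
    simp only [hφdef]
    rw [if_neg]
    intro hh
    exact absurd hh.2 (not_lt.2 (le_of_lt hq))
  · -- the integral
    have hcont1 : Continuous (fun z : ℂ => φ (z, 0)) :=
      hφpsh.smooth.continuous.comp (by fun_prop)
    have hcont2 : Continuous (fun z : ℂ => ψ (z, 0)) := hψc.comp (by fun_prop)
    have i1 : IntegrableOn (fun z : ℂ => φ (z, 0)) (Metric.ball (0 : ℂ) 1) :=
      (hcont1.continuousOn.integrableOn_compact (isCompact_closedBall _ _)).mono_set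
        Metric.ball_subset_closedBall
    have i2 : IntegrableOn (fun z : ℂ => ψ (z, 0)) (Metric.ball (0 : ℂ) 1) :=
      (hcont2.continuousOn.integrableOn_compact (isCompact_closedBall _ _)).mono_set
        Metric.ball_subset_closedBall
    have i3 : IntegrableOn (fun _ : ℂ => 5 * δ) (Metric.ball (0 : ℂ) 1) := by
      refine integrableOn_const ?_
      exact measure_ball_lt_top.ne
    have h1 : ∫ z in Metric.ball (0 : ℂ) 1, (ψ (z, 0) - 5 * δ)
        ≤ ∫ z in Metric.ball (0 : ℂ) 1, φ (z, 0) := by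
      refine setIntegral_mono_on (i2.sub i3) i1 measurableSet_ball ?_
      intro z hz
      have hz' : ‖z‖ < 1 := by simpa using hz
      simp only [hφdef]
      rw [if_pos ⟨hz', by simpa using hs0⟩]
      have := (le_max_left _ _).trans (hm4 ((ψ (z, 0) - 5 * δ) - f (z, 0)))
      linarith
    rw [integral_sub i2 i3] at h1
    have h2 : ∫ _ in Metric.ball (0 : ℂ) 1, 5 * δ = 5 * δ * Real.pi := by
      rw [setIntegral_const, Measure.real, Complex.volume_ball]
      simp [mul_comm]
    rw [h2] at h1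
    have hlog : 0 ≤ Real.log (1 / r₀) := by
      refine Real.log_nonneg ?_
      rw [le_div_iff₀ hr₀]; linarith
    have h4 : Real.sqrt (∫ θ in (0 : ℝ)..(2 * Real.pi), ∫ z,
        gz (eta c δ f) (z, r * Complex.exp (θ * Complex.I)))
        ≤ 12 * Real.sqrt (M * (1 + Real.log (1 / r₀))) := by
      have h5 : (0 : ℝ) ≤ M * (1 + Real.log (1 / r₀)) := by positivity
      rw [Real.sqrt_le_left (by positivity), mul_pow, Real.sq_sqrt h5]
      refine hr3.trans ?_
      linarith
    have h5 : 0 ≤ Real.sqrt (M * (1 + Real.log (1 / r₀))) := Real.sqrt_nonneg _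
    have h7 := hψ3.trans (mul_le_mul_of_nonneg_left (add_le_add_right h4 1) hCE)
    have hπ := Real.pi_pos
    nlinarith [mul_nonneg hCE h5, mul_nonneg hCE hδ.le, mul_nonneg hπ.le h5, mul_nonneg hπ.le hδ.le]

end CMA
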